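import Mathlib

/-!
# MP_1ac54c_co: gapped versions of 1234, 1243, 2143 are Wilf-equivalent
-/

set_option autoImplicit false

open Finset Equiv

namespace Pool.Agent.Results.MP_1ac54c_co.Gapped

/-- The permutation `π` contains the distant pattern obtained from `q` (one-line notation) by
inserting one square after its letter number `j + 1` (`j = 0, 1, 2`). -/
def Contains {n : ℕ} (q : Fin 4 → ℕ) (j : Fin 3) (π : Perm (Fin n)) : Prop :=
  ∃ i : Fin 4 → Fin n, StrictMono i ∧ (∀ s t : Fin 4, π (i s) < π (i t) ↔ q s < q t) ∧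
    (i j.castSucc : ℕ) + 2 ≤ (i j.succ : ℕ)

/-- the number of permutations of `n` letters avoiding the distant pattern. -/
noncomputable def av (n : ℕ) (q : Fin 4 → ℕ) (j : Fin 3) : ℕ :=
  Nat.card {π : Perm (Fin n) // ¬ Contains q j π}

/-! ### Permutations as functions on the naturals -/

section ex

variable {k : ℕ}

/-- extension of a permutation of `Fin k` by the identity. -/
def ex (σ : Perm (Fin k)) (t : ℕ) : ℕ := if h : t < k then (σ ⟨t, h⟩ : ℕ) else t

theorem ex_val (σ : Perm (Fin k)) (t : Fin k) : ex σ t = (σ t : ℕ) := by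
  simp [ex]

theorem ex_lt (σ : Perm (Fin k)) {t : ℕ} (h : t < k) : ex σ t < k := by
  simp [ex, h]

theorem ex_ge (σ : Perm (Fin k)) {t : ℕ} (h : k ≤ t) : ex σ t = t := by
  simp [ex, Nat.not_lt.2 h]

theorem ex_mul (σ τ : Perm (Fin k)) (t : ℕ) : ex (σ * τ) t = ex σ (ex τ t) := by
  by_cases h : t < k
  · simp [ex, h]
  · rw [ex_ge _ (by omega), ex_ge τ (by omega), ex_ge _ (by omega)]

theorem ex_one (t : ℕ) : ex (1 : Perm (Fin k)) t = t := by
  by_cases h : t < k
  · simp [ex, h]
  · rw [ex_ge _ (by omega)]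

theorem ex_inv_ex (σ : Perm (Fin k)) (t : ℕ) : ex σ⁻¹ (ex σ t) = t := by
  rw [← ex_mul, inv_mul_cancel, ex_one]

theorem ex_ex_inv (σ : Perm (Fin k)) (t : ℕ) : ex σ (ex σ⁻¹ t) = t := by
  rw [← ex_mul, mul_inv_cancel, ex_one]

theorem ex_inj (σ : Perm (Fin k)) : Function.Injective (ex σ) := fun s t h => by
  rw [← ex_inv_ex σ s, h, ex_inv_ex]

theorem ex_ext {σ τ : Perm (Fin k)} (h : ∀ t < k, ex σ t = ex τ t) : σ = τ := by
  ext t
  rw [← ex_val, ← ex_val]
  exact h t t.isLt

theorem ex_swap {i j : ℕ} (hi : i < k) (hj : j < k) (t : ℕ) :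
    ex (swap (⟨i, hi⟩ : Fin k) ⟨j, hj⟩) t = if t = i then j else if t = j then i else t := by
  by_cases h : t < k
  · unfold ex
    rw [dif_pos h, swap_apply_def]
    simp only [Fin.mk.injEq]
    split_ifs <;> rfl
  · rw [ex_ge _ (by omega), if_neg (by omega), if_neg (by omega)]

end ex

/-! ### The inside cells -/

section core

variable (n s : ℕ) (T sg : ℕ → ℕ → Prop)

/-- the cell `(c, v)` is inside: there is an occurrence of the suffix pattern on its upper right,
starting at least `s` columns further. -/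
def Ins (p : ℕ → ℕ) (c v : ℕ) : Prop :=
  ∃ x y, c + s ≤ x ∧ x < y ∧ T x y ∧ y < n ∧ v < p x ∧ v < p y ∧ sg (p x) (p y)

variable {n s T sg}

theorem Ins.mono {p : ℕ → ℕ} {c v c' v' : ℕ} (h : Ins n s T sg p c v) (hc : c' ≤ c)
    (hv : v' ≤ v) : Ins n s T sg p c' v' := by
  obtain ⟨x, y, h1, h2, h3, h4, h5, h6, h7⟩ := h
  exact ⟨x, y, by omega, h2, h3, h4, by omega, by omega, h7⟩

theorem Ins.lt {p : ℕ → ℕ} {c v : ℕ} (h : Ins n s T sg p c v) : c < n := by
  obtain ⟨x, y, h1, h2, h3, h4, h5, h6, h7⟩ := h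
  omega

theorem key (hs : 1 ≤ s) (p : ℕ → ℕ) : ∀ m c v : ℕ, n ≤ c + m → Ins n s T sg p c v →
    ∃ x y, c + s ≤ x ∧ x < y ∧ T x y ∧ y < n ∧ v < p x ∧ v < p y ∧ sg (p x) (p y) ∧
      ¬ Ins n s T sg p x (p x) ∧ ¬ Ins n s T sg p y (p y) := by
  intro m
  induction m with
  | zero =>
    intro c v h1 h2
    have := h2.lt
    omega
  | succ m ih =>
    intro c v h1 h2
    obtain ⟨x, y, h3, h4, h5, h6, h7, h8, h9⟩ := h2
    by_cases hx : Ins n s T sg p x (p x)
    · obtain ⟨x', y', g1, g2, g3, g4, g5, g6, g7⟩ := ih x (p x) (by omega) hx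
      exact ⟨x', y', by omega, g2, g3, g4, by omega, by omega, g7⟩
    · by_cases hy : Ins n s T sg p y (p y)
      · obtain ⟨x', y', g1, g2, g3, g4, g5, g6, g7⟩ := ih y (p y) (by omega) hy
        exact ⟨x', y', by omega, g2, g3, g4, by omega, by omega, g7⟩
      · exact ⟨x, y, h3, h4, h5, h6, h7, h8, h9, hx, hy⟩

theorem region (hs : 1 ≤ s) {p p' : ℕ → ℕ}
    (h : ∀ a, p a = p' a ∨ (Ins n s T sg p a (p a) ∧ Ins n s T sg p a (p' a))) (c v : ℕ) :
    Ins n s T sg p' c v ↔ Ins n s T sg p c v := by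
  constructor
  · rintro ⟨x, y, h3, h4, h5, h6, h7, h8, h9⟩
    rcases h x with hx | ⟨-, hx⟩
    · rcases h y with hy | ⟨-, hy⟩
      · rw [← hx] at h7 h9
        rw [← hy] at h8 h9
        exact ⟨x, y, h3, h4, h5, h6, h7, h8, h9⟩
      · exact hy.mono (by omega) (by omega)
    · exact hx.mono (by omega) (by omega)
  · intro hc
    obtain ⟨x, y, h3, h4, h5, h6, h7, h8, h9, hx, hy⟩ := key hs p n c v (by omega) hc
    have e1 : p x = p' x := by
      rcases h x with h' | ⟨h', -⟩
      · exact h'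
      · exact absurd h' hx
    have e2 : p y = p' y := by
      rcases h y with h' | ⟨h', -⟩
      · exact h'
      · exact absurd h' hy
    rw [e1] at h7 h9
    rw [e2] at h8 h9
    exact ⟨x, y, h3, h4, h5, h6, h7, h8, h9⟩

variable (n s T sg)

open Classical in
/-- the outside points. -/
noncomputable def out (π : Perm (Fin n)) (a : ℕ) : Option ℕ :=
  if Ins n s T sg (ex π) a (ex π a) then none else some (ex π a)

variable {n s T sg}

theorem out_none {π : Perm (Fin n)} {a : ℕ} :
    out n s T sg π a = none ↔ Ins n s T sg (ex π) a (ex π a) := by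
  classical
  unfold out
  split_ifs with h <;> simp [h]

theorem out_some {π : Perm (Fin n)} {a : ℕ} (h : ¬ Ins n s T sg (ex π) a (ex π a)) :
    out n s T sg π a = some (ex π a) := by
  classical
  unfold out
  rw [if_neg h]

theorem out_agree {π π' : Perm (Fin n)} (h : out n s T sg π = out n s T sg π') {a : ℕ}
    (ha : ¬ Ins n s T sg (ex π) a (ex π a)) : ex π a = ex π' a := by
  have h1 := congrFun h a
  rw [out_some ha] at h1
  by_cases h2 : Ins n s T sg (ex π') a (ex π' a)
  · rw [out_none.2 h2] at h1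
    exact absurd h1 (by simp)
  · rw [out_some h2] at h1
    exact Option.some.inj h1

theorem ins_of_out (hs : 1 ≤ s) {π π' : Perm (Fin n)} (h : out n s T sg π = out n s T sg π')
    {c v : ℕ} (hc : Ins n s T sg (ex π) c v) : Ins n s T sg (ex π') c v := by
  obtain ⟨x, y, h3, h4, h5, h6, h7, h8, h9, hx, hy⟩ := key hs (ex π) n c v (by omega) hc
  rw [out_agree h hx] at h7 h9
  rw [out_agree h hy] at h8 h9
  exact ⟨x, y, h3, h4, h5, h6, h7, h8, h9⟩

theorem out_eq (hs : 1 ≤ s) {π π' : Perm (Fin n)}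
    (h : ∀ a, ex π a = ex π' a ∨
      (Ins n s T sg (ex π) a (ex π a) ∧ Ins n s T sg (ex π) a (ex π' a))) :
    out n s T sg π' = out n s T sg π := by
  have hr := region hs h
  funext a
  by_cases h1 : Ins n s T sg (ex π) a (ex π a)
  · rw [out_none.2 h1, out_none, hr]
    rcases h a with h2 | ⟨-, h2⟩
    · rwa [← h2]
    · exact h2
  · rcases h a with h2 | ⟨h2, -⟩
    · rw [out_some h1, out_some (by rw [hr, ← h2]; exact h1), h2]
    · exact absurd h2 h1

variable (n s T sg)

/-- the avoiders of `1 2` with distance at least `g`, followed by the suffix. -/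
def A (g : ℕ) (π : Perm (Fin n)) : Prop :=
  ∀ i j, i + g ≤ j → j < n → ex π i < ex π j → ¬ Ins n s T sg (ex π) j (ex π j)

/-- the avoiders of `2 1` with distance at least `g`, followed by the suffix. -/
def B (g : ℕ) (π : Perm (Fin n)) : Prop :=
  ∀ i j, i + g ≤ j → j < n → ex π j < ex π i → ¬ Ins n s T sg (ex π) j (ex π i)

variable {n s T sg}

theorem A_inj (hs : 1 ≤ s) {π π' : Perm (Fin n)} (h : out n s T sg π = out n s T sg π')
    (hA : A n s T sg 1 π) (hA' : A n s T sg 1 π') : π = π' := by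
  have aux : ∀ {π π' : Perm (Fin n)}, out n s T sg π = out n s T sg π' →
      A n s T sg 1 π → ∀ c < n, (∀ a < c, ex π a = ex π' a) → ¬ ex π c < ex π' c := by
    intro π π' h hA c hc hca hlt
    set r := ex π' c
    have hr : r < n := ex_lt _ hc
    have hj1 : ex π⁻¹ r < n := ex_lt _ hr
    have hj2 : ex π (ex π⁻¹ r) = r := ex_ex_inv _ _
    set j := ex π⁻¹ r
    have hcj : c < j := by
      rcases lt_trichotomy j c with h1 | h1 | h1
      · have := hca j h1
        rw [hj2] at this
        have := ex_inj π' this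
        omega
      · rw [h1] at hj2
        omega
      · exact h1
    refine hA c j (by omega) hj1 (by omega) ?_
    by_contra hn
    have := out_agree h hn
    rw [hj2] at this
    have := ex_inj π' this
    omega
  apply ex_ext
  intro t
  induction t using Nat.strong_induction_on with
  | _ t ih =>
    intro ht
    have h1 := aux h hA t ht (fun a ha => ih a ha (by omega))
    have h2 := aux h.symm hA' t ht (fun a ha => (ih a ha (by omega)).symm)
    omega

theorem B_inj (hs : 1 ≤ s) {π π' : Perm (Fin n)} (h : out n s T sg π = out n s T sg π')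
    (hB : B n s T sg 1 π) (hB' : B n s T sg 1 π') : π = π' := by
  have aux : ∀ {π π' : Perm (Fin n)}, out n s T sg π = out n s T sg π' →
      B n s T sg 1 π → ∀ c < n, (∀ a, c < a → ex π a = ex π' a) → ¬ ex π c < ex π' c := by
    intro π π' h hB c hc hca hlt
    have hin : Ins n s T sg (ex π') c (ex π' c) := by
      by_contra hn
      have := out_agree h.symm hn
      omega
    set r := ex π' c
    have hr : r < n := ex_lt _ hc
    have hj1 : ex π⁻¹ r < n := ex_lt _ hr
    have hj2 : ex π (ex π⁻¹ r) = r := ex_ex_inv _ _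
    set j := ex π⁻¹ r
    have hcj : j < c := by
      rcases lt_trichotomy j c with h1 | h1 | h1
      · exact h1
      · rw [h1] at hj2
        omega
      · have := hca j h1
        rw [hj2] at this
        have := ex_inj π' this
        omega
    refine hB j c (by omega) hc (by omega) ?_
    rw [hj2]
    exact ins_of_out hs h.symm hin
  apply ex_ext
  have main : ∀ m t, n ≤ t + m → ex π t = ex π' t := by
    intro m
    induction m with
    | zero =>
      intro t ht
      rw [ex_ge _ (by omega), ex_ge _ (by omega)]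
    | succ m ih =>
      intro t ht
      by_cases htn : t < n
      · have h1 := aux h hB t htn (fun a ha => ih a (by omega))
        have h2 := aux h.symm hB' t htn (fun a ha => (ih a (by omega)).symm)
        omega
      · rw [ex_ge _ (by omega), ex_ge _ (by omega)]
  intro t _
  exact main n t (by omega)

theorem swap_out (hs : 1 ≤ s) (π : Perm (Fin n)) {i j : ℕ} (hi : i < n) (hj : j < n)
    (hij : i < j) (h : Ins n s T sg (ex π) j (max (ex π i) (ex π j))) :
    out n s T sg (π * swap (⟨i, hi⟩ : Fin n) ⟨j, hj⟩) = out n s T sg π := by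
  apply out_eq hs
  intro a
  rw [ex_mul, ex_swap]
  by_cases h1 : a = i
  · right
    subst h1
    rw [if_pos rfl]
    exact ⟨h.mono (by omega) (by omega), h.mono (by omega) (by omega)⟩
  · rw [if_neg h1]
    by_cases h2 : a = j
    · right
      subst h2
      rw [if_pos rfl]
      exact ⟨h.mono (by omega) (by omega), h.mono (by omega) (by omega)⟩
    · left
      rw [if_neg h2]

/-- the potential. -/
def Phi (π : Perm (Fin n)) : ℤ := ∑ a ∈ range n, (a : ℤ) * ex π a

theorem Phi_swap (π : Perm (Fin n)) {i j : ℕ} (hi : i < n) (hj : j < n) (hij : i < j) :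
    Phi (π * swap (⟨i, hi⟩ : Fin n) ⟨j, hj⟩) =
      Phi π - ((j : ℤ) - i) * ((ex π j : ℤ) - ex π i) := by
  unfold Phi
  have h1 : ∀ a ∈ range n, (a : ℤ) * ex (π * swap (⟨i, hi⟩ : Fin n) ⟨j, hj⟩) a =
      (a : ℤ) * ex π a + ((if a = i then (a : ℤ) * (ex π j - ex π i) else 0) +
        (if a = j then (a : ℤ) * (ex π i - ex π j) else 0)) := by
    intro a _
    rw [ex_mul, ex_swap]
    by_cases h1 : a = i
    · subst h1
      rw [if_pos rfl, if_pos rfl, if_neg (by omega)]
      ring
    · by_cases h2 : a = j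
      · subst h2
        rw [if_neg h1, if_pos rfl, if_neg h1, if_pos rfl]
        ring
      · rw [if_neg h1, if_neg h2, if_neg h1, if_neg h2]
        ring
  rw [Finset.sum_congr rfl h1, Finset.sum_add_distrib, Finset.sum_add_distrib,
    Finset.sum_ite_eq', Finset.sum_ite_eq', if_pos (mem_range.2 hi), if_pos (mem_range.2 hj)]
  ring

theorem A_exists (hs : 1 ≤ s) (π : Perm (Fin n)) :
    ∃ π', A n s T sg 1 π' ∧ out n s T sg π' = out n s T sg π := by
  classical
  obtain ⟨π', h1, h2⟩ := Finset.exists_min_image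
    ((univ : Finset (Perm (Fin n))).filter fun π' => out n s T sg π' = out n s T sg π)
    Phi ⟨π, by simp⟩
  rw [mem_filter] at h1
  refine ⟨π', ?_, h1.2⟩
  intro i j hij hj hlt hin
  have hi : i < n := by omega
  have h3 := swap_out hs π' hi hj (by omega) (by
    rw [max_eq_right hlt.le]; exact hin)
  have h4 := h2 _ (by rw [mem_filter]; exact ⟨mem_univ _, h3.trans h1.2⟩)
  rw [Phi_swap π' hi hj (by omega)] at h4
  have h5 : (0 : ℤ) < ((j : ℤ) - i) * ((ex π' j : ℤ) - ex π' i) :=
    mul_pos (by omega) (by omega)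
  omega

theorem B_exists (hs : 1 ≤ s) (π : Perm (Fin n)) :
    ∃ π', B n s T sg 1 π' ∧ out n s T sg π' = out n s T sg π := by
  classical
  obtain ⟨π', h1, h2⟩ := Finset.exists_max_image
    ((univ : Finset (Perm (Fin n))).filter fun π' => out n s T sg π' = out n s T sg π)
    Phi ⟨π, by simp⟩
  rw [mem_filter] at h1
  refine ⟨π', ?_, h1.2⟩
  intro i j hij hj hlt hin
  have hi : i < n := by omega
  have h3 := swap_out hs π' hi hj (by omega) (by
    rw [max_eq_left hlt.le]; exact hin)
  have h4 := h2 _ (by rw [mem_filter]; exact ⟨mem_univ _, h3.trans h1.2⟩)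
  rw [Phi_swap π' hi hj (by omega)] at h4
  have h5 : (0 : ℤ) < ((j : ℤ) - i) * ((ex π' i : ℤ) - ex π' j) :=
    mul_pos (by omega) (by omega)
  have h6 : ((j : ℤ) - i) * ((ex π' j : ℤ) - ex π' i) =
      - (((j : ℤ) - i) * ((ex π' i : ℤ) - ex π' j)) := by ring
  omega

open Classical in
theorem card_one (hs : 1 ≤ s) (F : (ℕ → Option ℕ) → Prop) :
    ((univ : Finset (Perm (Fin n))).filter fun π => A n s T sg 1 π ∧ F (out n s T sg π)).card =
    ((univ : Finset (Perm (Fin n))).filter fun π => B n s T sg 1 π ∧ F (out n s T sg π)).card := by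
  rw [← Finset.card_image_of_injOn (f := out n s T sg) (s := (univ : Finset (Perm (Fin n))).filter
      fun π => A n s T sg 1 π ∧ F (out n s T sg π)),
    ← Finset.card_image_of_injOn (f := out n s T sg) (s := (univ : Finset (Perm (Fin n))).filter
      fun π => B n s T sg 1 π ∧ F (out n s T sg π))]
  · congr 1
    ext o
    simp only [mem_image, mem_filter, mem_univ, true_and]
    constructor
    · rintro ⟨π, ⟨-, h2⟩, rfl⟩
      obtain ⟨π', h3, h4⟩ := B_exists (T := T) (sg := sg) hs π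
      exact ⟨π', ⟨h3, by rwa [h4]⟩, h4⟩
    · rintro ⟨π, ⟨-, h2⟩, rfl⟩
      obtain ⟨π', h3, h4⟩ := A_exists (T := T) (sg := sg) hs π
      exact ⟨π', ⟨h3, by rwa [h4]⟩, h4⟩
  · intro π hπ π' hπ' h
    simp only [coe_filter, mem_univ, true_and, Set.mem_ofPred_eq] at hπ hπ'
    exact B_inj hs h hπ.1 hπ'.1
  · intro π hπ π' hπ' h
    simp only [coe_filter, mem_univ, true_and, Set.mem_ofPred_eq] at hπ hπ'
    exact A_inj hs h hπ.1 hπ'.1

end core

/-! ### Adjacent transpositions -/

section gap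

variable {n : ℕ} {T sg : ℕ → ℕ → Prop}

theorem eqh {π : Perm (Fin n)} {c v : ℕ} (h : Ins n 1 T sg (ex π) c v)
    (h' : Ins n 1 T sg (ex π) (c + 1) (ex π (c + 1))) : Ins n 1 T sg (ex π) (c + 1) v := by
  obtain ⟨x, y, h3, h4, h5, h6, h7, h8, h9, hx, hy⟩ := key le_rfl (ex π) n c v (by omega) h
  have : x ≠ c + 1 := by
    rintro rfl
    exact hx h'
  exact ⟨x, y, by omega, h4, h5, h6, h7, h8, h9⟩

/-- the product of the transpositions `(c, c + 1)`, `c ∈ S`, as a function. -/
def tS (S : Finset ℕ) (a : ℕ) : ℕ := if a ∈ S then a + 1 else if 1 ≤ a ∧ a - 1 ∈ S then a - 1 else a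

theorem tS_mem {S : Finset ℕ} {a : ℕ} (h : a ∈ S) : tS S a = a + 1 := if_pos h

theorem tS_cases (S : Finset ℕ) (a : ℕ) :
    (a ∈ S ∧ tS S a = a + 1) ∨ (a ∉ S ∧ 1 ≤ a ∧ a - 1 ∈ S ∧ tS S a = a - 1) ∨
      (a ∉ S ∧ (1 ≤ a → a - 1 ∉ S) ∧ tS S a = a) := by
  unfold tS
  split_ifs with h1 h2
  · exact Or.inl ⟨h1, rfl⟩
  · exact Or.inr (Or.inl ⟨h1, h2.1, h2.2, rfl⟩)
  · exact Or.inr (Or.inr ⟨h1, fun h3 h4 => h2 ⟨h3, h4⟩, rfl⟩)

theorem tS_tS {S : Finset ℕ} (hS : ∀ c ∈ S, c + 1 ∉ S) (a : ℕ) : tS S (tS S a) = a := by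
  rcases tS_cases S a with ⟨h1, h2⟩ | ⟨h1, h2, h3, h4⟩ | ⟨h1, h2, h3⟩
  · rw [h2]
    unfold tS
    rw [if_neg (hS a h1), if_pos ⟨by omega, by rwa [Nat.add_sub_cancel]⟩, Nat.add_sub_cancel]
  · rw [h4, tS_mem h3]
    omega
  · rw [h3, h3]

theorem exists_tau {S : Finset ℕ} (hS : ∀ c ∈ S, c + 1 < n ∧ c + 1 ∉ S) :
    ∃ τ : Perm (Fin n), τ * τ = 1 ∧ ∀ a, ex τ a = tS S a := by
  have h0 := tS_tS (fun c hc => (hS c hc).2)
  have hlt : ∀ a < n, tS S a < n := by
    intro a ha
    rcases tS_cases S a with ⟨h1, h2⟩ | ⟨h1, h2, h3, h4⟩ | ⟨h1, h2, h3⟩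
    · have := (hS a h1).1
      omega
    · omega
    · omega
  let f : Fin n → Fin n := fun a => ⟨tS S a, hlt a a.isLt⟩
  have hf : Function.Involutive f := fun a => Fin.ext (h0 a)
  refine ⟨hf.toPerm f, ?_, ?_⟩
  · ext a
    simp only [Perm.mul_apply, Function.Involutive.coe_toPerm, Perm.one_apply]
    rw [hf a]
  · intro a
    by_cases ha : a < n
    · unfold ex
      rw [dif_pos ha]
      rfl
    · rw [ex_ge _ (by omega)]
      rcases tS_cases S a with ⟨h1, h2⟩ | ⟨h1, h2, h3, h4⟩ | ⟨h1, h2, h3⟩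
      · have := (hS a h1).1
        omega
      · have := (hS _ h3).1
        omega
      · exact h3.symm

variable (n)

/-- `S` is a set of disjoint pairs of adjacent inside columns. -/
def good (S : Finset ℕ) (o : ℕ → Option ℕ) : Prop :=
  ∀ c ∈ S, c + 1 < n ∧ c + 1 ∉ S ∧ o c = none ∧ o (c + 1) = none

variable {n}

theorem tau_out {S : Finset ℕ} {w τ : Perm (Fin n)} (hg : good n S (out n 1 T sg w))
    (hτ : ∀ a, ex τ a = tS S a) : out n 1 T sg (w * τ) = out n 1 T sg w := by
  apply out_eq le_rfl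
  intro a
  rw [ex_mul, hτ]
  rcases tS_cases S a with ⟨h1, h2⟩ | ⟨h1, h2, h3, h4⟩ | ⟨h1, h2, h3⟩
  · right
    rw [h2]
    obtain ⟨-, -, g1, g2⟩ := hg a h1
    rw [out_none] at g1 g2
    exact ⟨g1, g2.mono (by omega) le_rfl⟩
  · right
    rw [h4]
    obtain ⟨-, -, g1, g2⟩ := hg _ h3
    rw [out_none] at g1 g2
    have g3 := eqh g1 g2
    rw [Nat.sub_add_cancel h2] at g2 g3
    exact ⟨g2, g3⟩
  · left
    rw [h3]

open Classical in
/-- the adjacent ascents. -/
noncomputable def SA (n : ℕ) (T sg : ℕ → ℕ → Prop) (w : Perm (Fin n)) : Finset ℕ :=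
  (range n).filter fun c => c + 1 < n ∧ ex w c < ex w (c + 1) ∧
    Ins n 1 T sg (ex w) (c + 1) (ex w (c + 1))

open Classical in
/-- the adjacent descents. -/
noncomputable def SB (n : ℕ) (T sg : ℕ → ℕ → Prop) (w : Perm (Fin n)) : Finset ℕ :=
  (range n).filter fun c => c + 1 < n ∧ ex w (c + 1) < ex w c ∧
    Ins n 1 T sg (ex w) (c + 1) (ex w c)

theorem mem_SA {w : Perm (Fin n)} {c : ℕ} : c ∈ SA n T sg w ↔ c + 1 < n ∧
    ex w c < ex w (c + 1) ∧ Ins n 1 T sg (ex w) (c + 1) (ex w (c + 1)) := by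
  classical
  unfold SA
  rw [mem_filter, mem_range]
  exact ⟨fun h => h.2, fun h => ⟨by omega, h⟩⟩

theorem mem_SB {w : Perm (Fin n)} {c : ℕ} : c ∈ SB n T sg w ↔ c + 1 < n ∧
    ex w (c + 1) < ex w c ∧ Ins n 1 T sg (ex w) (c + 1) (ex w c) := by
  classical
  unfold SB
  rw [mem_filter, mem_range]
  exact ⟨fun h => h.2, fun h => ⟨by omega, h⟩⟩

theorem good_SA {w : Perm (Fin n)} (hA : A n 1 T sg 2 w) :
    good n (SA n T sg w) (out n 1 T sg w) := by
  intro c hc
  rw [mem_SA] at hc
  obtain ⟨h1, h2, h3⟩ := hc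
  refine ⟨h1, ?_, ?_, ?_⟩
  · rw [mem_SA]
    rintro ⟨g1, g2, g3⟩
    exact hA c (c + 1 + 1) (by omega) g1 (by omega) g3
  · rw [out_none]
    exact h3.mono (by omega) h2.le
  · rw [out_none]
    exact h3

theorem good_SB {w : Perm (Fin n)} (hB : B n 1 T sg 2 w) :
    good n (SB n T sg w) (out n 1 T sg w) := by
  intro c hc
  rw [mem_SB] at hc
  obtain ⟨h1, h2, h3⟩ := hc
  refine ⟨h1, ?_, ?_, ?_⟩
  · rw [mem_SB]
    rintro ⟨g1, g2, g3⟩
    exact hB c (c + 1 + 1) (by omega) g1 (by omega) (eqh h3 (g3.mono le_rfl g2.le))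
  · rw [out_none]
    exact h3.mono (by omega) le_rfl
  · rw [out_none]
    exact h3.mono le_rfl h2.le

theorem claimA {S : Finset ℕ} {τ : Perm (Fin n)} (hS : ∀ c ∈ S, c + 1 < n ∧ c + 1 ∉ S)
    (hτ : ∀ a, ex τ a = tS S a) (w : Perm (Fin n)) :
    (A n 1 T sg 2 w ∧ SA n T sg w = S) ↔ (good n S (out n 1 T sg w) ∧ A n 1 T sg 1 (w * τ)) := by
  have hSS := fun c hc => (hS c hc).2
  constructor
  · rintro ⟨hA, rfl⟩
    have hg := good_SA hA
    refine ⟨hg, ?_⟩
    have ho := tau_out hg hτ
    intro a b hab hb hlt hin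
    have hin' := ins_of_out le_rfl ho hin
    rw [ex_mul, ex_mul, hτ, hτ] at hlt
    rw [ex_mul, hτ] at hin'
    have ha2 := tS_tS hSS a
    have hb2 := tS_tS hSS b
    have hbcol : Ins n 1 T sg (ex w) (tS (SA n T sg w) b) (ex w (tS (SA n T sg w) b)) := by
      rcases tS_cases (SA n T sg w) b with ⟨h1, h2⟩ | ⟨h1, h2, h3, h4⟩ | ⟨h1, h2, h3⟩
      · rw [h2]
        exact out_none.1 (hg b h1).2.2.2
      · rw [h4]
        exact out_none.1 (hg _ h3).2.2.1
      · rw [h3] at hin' ⊢
        exact hin'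
    have hbn := hbcol.lt
    rcases lt_trichotomy (tS (SA n T sg w) a) (tS (SA n T sg w) b) with h | h | h
    · have h1 : tS (SA n T sg w) b = tS (SA n T sg w) a + 1 := by
        by_contra hne
        exact hA _ _ (by omega) hbn hlt hbcol
      have h2 : tS (SA n T sg w) a ∈ SA n T sg w := by
        rw [mem_SA, ← h1]
        exact ⟨hbn, hlt, hbcol⟩
      have h3 := tS_mem h2
      rw [ha2, ← h1] at h3
      have h4 := congrArg (tS (SA n T sg w)) h3
      rw [hb2] at h4
      omega
    · rw [h] at hlt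
      exact lt_irrefl _ hlt
    · rcases tS_cases (SA n T sg w) a with ⟨h1, h2⟩ | ⟨h1, h2, h3, h4⟩ | ⟨h1, h2, h3⟩
      · rcases tS_cases (SA n T sg w) b with ⟨g1, g2⟩ | ⟨g1, g2, g3, g4⟩ | ⟨g1, g2, g3⟩
        · omega
        · have : b = a + 1 := by omega
          subst this
          rw [h2, g4, Nat.add_sub_cancel] at hlt
          have := (mem_SA.1 h1).2.1
          omega
        · have : b = a + 1 := by omega
          subst this
          exact absurd (by rwa [Nat.add_sub_cancel]) (g2 (by omega))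
      · rcases tS_cases (SA n T sg w) b with ⟨g1, g2⟩ | ⟨g1, g2, g3, g4⟩ | ⟨g1, g2, g3⟩ <;> omega
      · rcases tS_cases (SA n T sg w) b with ⟨g1, g2⟩ | ⟨g1, g2, g3, g4⟩ | ⟨g1, g2, g3⟩
        · omega
        · have : b - 1 = a := by omega
          rw [this] at g3
          exact absurd g3 h1
        · omega
  · rintro ⟨hg, hA⟩
    have ho := tau_out hg hτ
    have hcol : ∀ b, Ins n 1 T sg (ex w) b (ex w b) →
        Ins n 1 T sg (ex (w * τ)) (tS S b) (ex (w * τ) (tS S b)) := by
      intro b hb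
      rw [← out_none, ho]
      rcases tS_cases S b with ⟨h1, h2⟩ | ⟨h1, h2, h3, h4⟩ | ⟨h1, h2, h3⟩
      · rw [h2]
        exact (hg b h1).2.2.2
      · rw [h4]
        exact (hg _ h3).2.2.1
      · rw [h3, out_none]
        exact hb
    have hval : ∀ b, ex (w * τ) (tS S b) = ex w b := by
      intro b
      rw [ex_mul, hτ, tS_tS hSS]
    refine ⟨?_, ?_⟩
    · intro a b hab hb hlt hin
      have h1 := hcol b hin
      have hn := h1.lt
      have hne : tS S a ≠ tS S b := by
        intro h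
        have := congrArg (tS S) h
        rw [tS_tS hSS, tS_tS hSS] at this
        omega
      refine hA (tS S a) (tS S b) ?_ hn ?_ h1
      · rcases tS_cases S a with ⟨h1, h2⟩ | ⟨h1, h2, h3, h4⟩ | ⟨h1, h2, h3⟩ <;>
          rcases tS_cases S b with ⟨g1, g2⟩ | ⟨g1, g2, g3, g4⟩ | ⟨g1, g2, g3⟩ <;> omega
      · rw [hval, hval]
        exact hlt
    · ext c
      rw [mem_SA]
      constructor
      · rintro ⟨h1, h2, h3⟩
        by_contra hc
        have h4 := hcol (c + 1) h3
        have hn := h4.lt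
        refine hA (tS S c) (tS S (c + 1)) ?_ hn ?_ h4
        · rcases tS_cases S c with ⟨h1, h2⟩ | ⟨h1, h2, h3, h4⟩ | ⟨h1, h2, h3⟩
          · exact absurd h1 hc
          · rcases tS_cases S (c + 1) with ⟨g1, g2⟩ | ⟨g1, g2, g3, g4⟩ | ⟨g1, g2, g3⟩
            · omega
            · rw [Nat.add_sub_cancel] at g3
              exact absurd g3 hc
            · omega
          · rcases tS_cases S (c + 1) with ⟨g1, g2⟩ | ⟨g1, g2, g3, g4⟩ | ⟨g1, g2, g3⟩
            · omega
            · rw [Nat.add_sub_cancel] at g3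
              exact absurd g3 hc
            · omega
        · rw [hval, hval]
          exact h2
      · intro hc
        obtain ⟨h1, h2, h3, h4⟩ := hg c hc
        have h5 := out_none.1 h4
        refine ⟨h1, ?_, h5⟩
        by_contra hlt
        have hne : ex w c ≠ ex w (c + 1) := fun h => by
          have := ex_inj w h
          omega
        have h6 := tS_mem hc
        have h7 : tS S (c + 1) = c := by rw [← h6, tS_tS hSS]
        have h8 := hval c
        have h9 := hval (c + 1)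
        rw [h6] at h8
        rw [h7] at h9
        refine hA c (c + 1) le_rfl h1 (by omega) ?_
        rw [← out_none, ho]
        exact h4

theorem claimB {S : Finset ℕ} {τ : Perm (Fin n)} (hS : ∀ c ∈ S, c + 1 < n ∧ c + 1 ∉ S)
    (hτ : ∀ a, ex τ a = tS S a) (w : Perm (Fin n)) :
    (B n 1 T sg 2 w ∧ SB n T sg w = S) ↔ (good n S (out n 1 T sg w) ∧ B n 1 T sg 1 (w * τ)) := by
  have hSS := fun c hc => (hS c hc).2
  -- moving the corner
  have hmove : good n S (out n 1 T sg w) → ∀ b v, Ins n 1 T sg (ex w) b v →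
      Ins n 1 T sg (ex w) (tS S b) v := by
    intro hg b v hb
    rcases tS_cases S b with ⟨h1, h2⟩ | ⟨h1, h2, h3, h4⟩ | ⟨h1, h2, h3⟩
    · rw [h2]
      exact eqh hb (out_none.1 (hg b h1).2.2.2)
    · rw [h4]
      exact hb.mono (by omega) le_rfl
    · rw [h3]
      exact hb
  constructor
  · rintro ⟨hB, rfl⟩
    have hg := good_SB hB
    refine ⟨hg, ?_⟩
    have ho := tau_out hg hτ
    intro a b hab hb hlt hin
    have hin' := ins_of_out le_rfl ho hin
    rw [ex_mul, ex_mul, hτ, hτ] at hlt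
    rw [ex_mul, hτ] at hin'
    have ha2 := tS_tS hSS a
    have hb2 := tS_tS hSS b
    have hbcol := hmove hg b _ hin'
    have hbn := hbcol.lt
    rcases lt_trichotomy (tS (SB n T sg w) a) (tS (SB n T sg w) b) with h | h | h
    · have h1 : tS (SB n T sg w) b = tS (SB n T sg w) a + 1 := by
        by_contra hne
        exact hB _ _ (by omega) hbn hlt hbcol
      have h2 : tS (SB n T sg w) a ∈ SB n T sg w := by
        rw [mem_SB, ← h1]
        exact ⟨hbn, hlt, hbcol⟩
      have h3 := tS_mem h2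
      rw [ha2, ← h1] at h3
      have h4 := congrArg (tS (SB n T sg w)) h3
      rw [hb2] at h4
      omega
    · rw [h] at hlt
      exact lt_irrefl _ hlt
    · rcases tS_cases (SB n T sg w) a with ⟨h1, h2⟩ | ⟨h1, h2, h3, h4⟩ | ⟨h1, h2, h3⟩
      · rcases tS_cases (SB n T sg w) b with ⟨g1, g2⟩ | ⟨g1, g2, g3, g4⟩ | ⟨g1, g2, g3⟩
        · omega
        · have : b = a + 1 := by omega
          subst this
          rw [h2, g4, Nat.add_sub_cancel] at hlt
          have := (mem_SB.1 h1).2.1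
          omega
        · have : b = a + 1 := by omega
          subst this
          exact absurd (by rwa [Nat.add_sub_cancel]) (g2 (by omega))
      · rcases tS_cases (SB n T sg w) b with ⟨g1, g2⟩ | ⟨g1, g2, g3, g4⟩ | ⟨g1, g2, g3⟩ <;> omega
      · rcases tS_cases (SB n T sg w) b with ⟨g1, g2⟩ | ⟨g1, g2, g3, g4⟩ | ⟨g1, g2, g3⟩
        · omega
        · have : b - 1 = a := by omega
          rw [this] at g3
          exact absurd g3 h1
        · omega
  · rintro ⟨hg, hB⟩
    have ho := tau_out hg hτ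
    have hval : ∀ b, ex (w * τ) (tS S b) = ex w b := by
      intro b
      rw [ex_mul, hτ, tS_tS hSS]
    refine ⟨?_, ?_⟩
    · intro a b hab hb hlt hin
      have h1 := ins_of_out le_rfl ho.symm (hmove hg b _ hin)
      have hn := h1.lt
      have hne : tS S a ≠ tS S b := by
        intro h
        have := congrArg (tS S) h
        rw [tS_tS hSS, tS_tS hSS] at this
        omega
      refine hB (tS S a) (tS S b) ?_ hn ?_ (by rw [hval]; exact h1)
      · rcases tS_cases S a with ⟨h1, h2⟩ | ⟨h1, h2, h3, h4⟩ | ⟨h1, h2, h3⟩ <;>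
          rcases tS_cases S b with ⟨g1, g2⟩ | ⟨g1, g2, g3, g4⟩ | ⟨g1, g2, g3⟩ <;> omega
      · rw [hval, hval]
        exact hlt
    · ext c
      rw [mem_SB]
      constructor
      · rintro ⟨h1, h2, h3⟩
        by_contra hc
        have h4 := ins_of_out le_rfl ho.symm (hmove hg (c + 1) _ h3)
        have hn := h4.lt
        refine hB (tS S c) (tS S (c + 1)) ?_ hn ?_ (by rw [hval]; exact h4)
        · rcases tS_cases S c with ⟨h1, h2⟩ | ⟨h1, h2, h3, h4⟩ | ⟨h1, h2, h3⟩
          · exact absurd h1 hc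
          · rcases tS_cases S (c + 1) with ⟨g1, g2⟩ | ⟨g1, g2, g3, g4⟩ | ⟨g1, g2, g3⟩
            · omega
            · rw [Nat.add_sub_cancel] at g3
              exact absurd g3 hc
            · omega
          · rcases tS_cases S (c + 1) with ⟨g1, g2⟩ | ⟨g1, g2, g3, g4⟩ | ⟨g1, g2, g3⟩
            · omega
            · rw [Nat.add_sub_cancel] at g3
              exact absurd g3 hc
            · omega
        · rw [hval, hval]
          exact h2
      · intro hc
        obtain ⟨h1, h2, h3, h4⟩ := hg c hc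
        have h5 := out_none.1 h4
        have h5' := out_none.1 h3
        refine ⟨h1, ?_, eqh h5' h5⟩
        by_contra hlt
        have hne : ex w c ≠ ex w (c + 1) := fun h => by
          have := ex_inj w h
          omega
        have h6 := tS_mem hc
        have h7 : tS S (c + 1) = c := by rw [← h6, tS_tS hSS]
        have h8 := hval c
        have h9 := hval (c + 1)
        rw [h6] at h8
        rw [h7] at h9
        refine hB c (c + 1) le_rfl h1 (by omega) ?_
        rw [h9]
        exact ins_of_out le_rfl ho.symm h5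

open Classical in
theorem cardA (S : Finset ℕ) :
    ((univ : Finset (Perm (Fin n))).filter fun w => A n 1 T sg 2 w ∧ SA n T sg w = S).card =
    ((univ : Finset (Perm (Fin n))).filter fun π =>
      A n 1 T sg 1 π ∧ good n S (out n 1 T sg π)).card := by
  by_cases hS : ∀ c ∈ S, c + 1 < n ∧ c + 1 ∉ S
  · obtain ⟨τ, hτ2, hτ⟩ := exists_tau hS
    refine Finset.card_equiv (Equiv.mulRight τ) fun w => ?_
    simp only [mem_filter, mem_univ, true_and, Equiv.coe_mulRight]
    rw [claimA hS hτ w, and_comm]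
    refine and_congr_right fun _ => ?_
    constructor
    · intro h
      rwa [tau_out h hτ]
    · intro h
      have := tau_out h hτ
      rw [mul_assoc, hτ2, mul_one] at this
      rwa [this]
  · rw [Finset.card_eq_zero.2, Finset.card_eq_zero.2]
    · rw [Finset.filter_eq_empty_iff]
      rintro π - ⟨-, hg⟩
      exact hS fun c hc => ⟨(hg c hc).1, (hg c hc).2.1⟩
    · rw [Finset.filter_eq_empty_iff]
      rintro w - ⟨hA, rfl⟩
      have hg := good_SA hA
      exact hS fun c hc => ⟨(hg c hc).1, (hg c hc).2.1⟩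

open Classical in
theorem cardB (S : Finset ℕ) :
    ((univ : Finset (Perm (Fin n))).filter fun w => B n 1 T sg 2 w ∧ SB n T sg w = S).card =
    ((univ : Finset (Perm (Fin n))).filter fun π =>
      B n 1 T sg 1 π ∧ good n S (out n 1 T sg π)).card := by
  by_cases hS : ∀ c ∈ S, c + 1 < n ∧ c + 1 ∉ S
  · obtain ⟨τ, hτ2, hτ⟩ := exists_tau hS
    refine Finset.card_equiv (Equiv.mulRight τ) fun w => ?_
    simp only [mem_filter, mem_univ, true_and, Equiv.coe_mulRight]
    rw [claimB hS hτ w, and_comm]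
    refine and_congr_right fun _ => ?_
    constructor
    · intro h
      rwa [tau_out h hτ]
    · intro h
      have := tau_out h hτ
      rw [mul_assoc, hτ2, mul_one] at this
      rwa [this]
  · rw [Finset.card_eq_zero.2, Finset.card_eq_zero.2]
    · rw [Finset.filter_eq_empty_iff]
      rintro π - ⟨-, hg⟩
      exact hS fun c hc => ⟨(hg c hc).1, (hg c hc).2.1⟩
    · rw [Finset.filter_eq_empty_iff]
      rintro w - ⟨hB, rfl⟩
      have hg := good_SB hB
      exact hS fun c hc => ⟨(hg c hc).1, (hg c hc).2.1⟩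

open Classical in
theorem card_two :
    ((univ : Finset (Perm (Fin n))).filter fun π => A n 1 T sg 2 π).card =
    ((univ : Finset (Perm (Fin n))).filter fun π => B n 1 T sg 2 π).card := by
  have hA : ∀ w ∈ (univ : Finset (Perm (Fin n))).filter fun π => A n 1 T sg 2 π,
      SA n T sg w ∈ (range n).powerset := by
    intro w _
    rw [mem_powerset]
    exact Finset.filter_subset _ _
  have hB : ∀ w ∈ (univ : Finset (Perm (Fin n))).filter fun π => B n 1 T sg 2 π,
      SB n T sg w ∈ (range n).powerset := by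
    intro w _
    rw [mem_powerset]
    exact Finset.filter_subset _ _
  rw [Finset.card_eq_sum_card_fiberwise hA, Finset.card_eq_sum_card_fiberwise hB]
  refine Finset.sum_congr rfl fun S _ => ?_
  rw [Finset.filter_filter, Finset.filter_filter, cardA, cardB]
  exact card_one le_rfl _

end gap

/-! ### The four-letter patterns -/

section four

variable {n : ℕ}

/-- distance between the first two letters. -/
def d0 (j : Fin 3) : ℕ := if j = 0 then 2 else 1

/-- distance between the middle letters. -/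
def d1 (j : Fin 3) : ℕ := if j = 1 then 2 else 1

/-- distance between the last two letters. -/
def d2 (j : Fin 3) : ℕ := if j = 2 then 2 else 1

theorem contains_iff (q : Fin 4 → ℕ) (j : Fin 3) (π : Perm (Fin n)) :
    Contains q j π ↔ ∃ x0 x1 x2 x3 : ℕ, x0 + d0 j ≤ x1 ∧ x1 + d1 j ≤ x2 ∧ x2 + d2 j ≤ x3 ∧
      x3 < n ∧ ∀ s t : Fin 4, ex π (![x0, x1, x2, x3] s) < ex π (![x0, x1, x2, x3] t) ↔
        q s < q t := by
  constructor
  · rintro ⟨i, hi, hv, hg⟩
    have h01 : (i 0 : ℕ) < i 1 := hi (by decide)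
    have h12 : (i 1 : ℕ) < i 2 := hi (by decide)
    have h23 : (i 2 : ℕ) < i 3 := hi (by decide)
    refine ⟨i 0, i 1, i 2, i 3, ?_, ?_, ?_, (i 3).isLt, ?_⟩
    · fin_cases j <;> simp [d0] at hg ⊢ <;> omega
    · fin_cases j <;> simp [d1] at hg ⊢ <;> omega
    · fin_cases j <;> simp [d2] at hg ⊢ <;> omega
    · intro s t
      rw [← hv s t, Fin.lt_def, ← ex_val, ← ex_val]
      fin_cases s <;> fin_cases t <;> simp
  · rintro ⟨x0, x1, x2, x3, h1, h2, h3, h4, hv⟩
    have hd0 : 1 ≤ d0 j := by unfold d0; split_ifs <;> omega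
    have hd1 : 1 ≤ d1 j := by unfold d1; split_ifs <;> omega
    have hd2 : 1 ≤ d2 j := by unfold d2; split_ifs <;> omega
    refine ⟨![⟨x0, by omega⟩, ⟨x1, by omega⟩, ⟨x2, by omega⟩, ⟨x3, h4⟩], ?_, ?_, ?_⟩
    · rw [Fin.strictMono_iff_lt_succ]
      intro s
      fin_cases s <;> simp <;> omega
    · intro s t
      rw [← hv s t, Fin.lt_def, ← ex_val, ← ex_val]
      fin_cases s <;> fin_cases t <;> simp
    · fin_cases j
      · simp [d0] at h1 ⊢; omega
      · simp [d1] at h2 ⊢; omega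
      · simp [d2] at h3 ⊢; omega

theorem av_A_up (j : Fin 3) (π : Perm (Fin n)) :
    ¬ Contains ![1, 2, 3, 4] j π ↔
      A n (d1 j) (fun x y => x + d2 j ≤ y) (fun a b => a < b) (d0 j) π := by
  have hd2 : 1 ≤ d2 j := by unfold d2; split_ifs <;> omega
  rw [contains_iff]
  constructor
  · rintro h i k hik hk hlt ⟨x, y, h1, h2, h3, h4, h5, h6, h7⟩
    refine h ⟨i, k, x, y, hik, h1, h3, h4, ?_⟩
    intro s t
    fin_cases s <;> fin_cases t <;> simp <;> omega
  · rintro h ⟨x0, x1, x2, x3, h1, h2, h3, h4, hv⟩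
    have e1 := (hv 0 1).2 (by simp)
    have e2 := (hv 1 2).2 (by simp)
    have e3 := (hv 1 3).2 (by simp)
    have e4 := (hv 2 3).2 (by simp)
    simp at e1 e2 e3 e4
    exact h x0 x1 h1 (by omega) e1 ⟨x2, x3, h2, by omega, h3, h4, e2, e3, e4⟩

theorem av_A_down (j : Fin 3) (π : Perm (Fin n)) :
    ¬ Contains ![1, 2, 4, 3] j π ↔
      A n (d1 j) (fun x y => x + d2 j ≤ y) (fun a b => b < a) (d0 j) π := by
  have hd2 : 1 ≤ d2 j := by unfold d2; split_ifs <;> omega
  rw [contains_iff]
  constructor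
  · rintro h i k hik hk hlt ⟨x, y, h1, h2, h3, h4, h5, h6, h7⟩
    refine h ⟨i, k, x, y, hik, h1, h3, h4, ?_⟩
    intro s t
    fin_cases s <;> fin_cases t <;> simp <;> omega
  · rintro h ⟨x0, x1, x2, x3, h1, h2, h3, h4, hv⟩
    have e1 := (hv 0 1).2 (by simp)
    have e2 := (hv 1 2).2 (by simp)
    have e3 := (hv 1 3).2 (by simp)
    have e4 := (hv 3 2).2 (by simp)
    simp at e1 e2 e3 e4
    exact h x0 x1 h1 (by omega) e1 ⟨x2, x3, h2, by omega, h3, h4, e2, e3, e4⟩

theorem av_B_up (j : Fin 3) (π : Perm (Fin n)) :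
    ¬ Contains ![2, 1, 3, 4] j π ↔
      B n (d1 j) (fun x y => x + d2 j ≤ y) (fun a b => a < b) (d0 j) π := by
  have hd2 : 1 ≤ d2 j := by unfold d2; split_ifs <;> omega
  rw [contains_iff]
  constructor
  · rintro h i k hik hk hlt ⟨x, y, h1, h2, h3, h4, h5, h6, h7⟩
    refine h ⟨i, k, x, y, hik, h1, h3, h4, ?_⟩
    intro s t
    fin_cases s <;> fin_cases t <;> simp <;> omega
  · rintro h ⟨x0, x1, x2, x3, h1, h2, h3, h4, hv⟩
    have e1 := (hv 1 0).2 (by simp)
    have e2 := (hv 0 2).2 (by simp)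
    have e3 := (hv 0 3).2 (by simp)
    have e4 := (hv 2 3).2 (by simp)
    simp at e1 e2 e3 e4
    exact h x0 x1 h1 (by omega) e1 ⟨x2, x3, h2, by omega, h3, h4, e2, e3, e4⟩

theorem av_B_down (j : Fin 3) (π : Perm (Fin n)) :
    ¬ Contains ![2, 1, 4, 3] j π ↔
      B n (d1 j) (fun x y => x + d2 j ≤ y) (fun a b => b < a) (d0 j) π := by
  have hd2 : 1 ≤ d2 j := by unfold d2; split_ifs <;> omega
  rw [contains_iff]
  constructor
  · rintro h i k hik hk hlt ⟨x, y, h1, h2, h3, h4, h5, h6, h7⟩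
    refine h ⟨i, k, x, y, hik, h1, h3, h4, ?_⟩
    intro s t
    fin_cases s <;> fin_cases t <;> simp <;> omega
  · rintro h ⟨x0, x1, x2, x3, h1, h2, h3, h4, hv⟩
    have e1 := (hv 1 0).2 (by simp)
    have e2 := (hv 0 2).2 (by simp)
    have e3 := (hv 0 3).2 (by simp)
    have e4 := (hv 3 2).2 (by simp)
    simp at e1 e2 e3 e4
    exact h x0 x1 h1 (by omega) e1 ⟨x2, x3, h2, by omega, h3, h4, e2, e3, e4⟩

open Classical in
theorem core_card (j : Fin 3) (sg : ℕ → ℕ → Prop) :
    ((univ : Finset (Perm (Fin n))).filter fun π =>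
      A n (d1 j) (fun x y => x + d2 j ≤ y) sg (d0 j) π).card =
    ((univ : Finset (Perm (Fin n))).filter fun π =>
      B n (d1 j) (fun x y => x + d2 j ≤ y) sg (d0 j) π).card := by
  have hd1 : 1 ≤ d1 j := by unfold d1; split_ifs <;> omega
  by_cases hj : j = 0
  · subst hj
    exact card_two (T := fun x y => x + d2 0 ≤ y) (sg := sg)
  · have h : d0 j = 1 := if_neg hj
    rw [h]
    have := card_one (n := n) (T := fun x y => x + d2 j ≤ y) (sg := sg) hd1 (fun _ => True)
    simpa using this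

theorem av_eq_card (q : Fin 4 → ℕ) (j : Fin 3) (Q : Perm (Fin n) → Prop) [DecidablePred Q]
    (h : ∀ π, ¬ Contains q j π ↔ Q π) :
    av n q j = ((univ : Finset (Perm (Fin n))).filter Q).card := by
  unfold av
  rw [Nat.card_congr (Equiv.subtypeEquivRight h), Nat.card_eq_fintype_card,
    Fintype.card_subtype]

theorem up (n : ℕ) (j : Fin 3) : av n ![1, 2, 3, 4] j = av n ![2, 1, 3, 4] j := by
  classical
  rw [av_eq_card _ j _ (av_A_up j), av_eq_card _ j _ (av_B_up j)]
  exact core_card j _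

theorem down (n : ℕ) (j : Fin 3) : av n ![1, 2, 4, 3] j = av n ![2, 1, 4, 3] j := by
  classical
  rw [av_eq_card _ j _ (av_A_down j), av_eq_card _ j _ (av_B_down j)]
  exact core_card j _

/-- reverse-complement. -/
def rc (π : Perm (Fin n)) : Perm (Fin n) := Fin.revPerm * π * Fin.revPerm

theorem rc_rc (π : Perm (Fin n)) : rc (rc π) = π := by
  ext t
  simp [rc]

theorem rc_contains {q q' : Fin 4 → ℕ} (hq : ∀ s t, q' s < q' t ↔ q (Fin.rev t) < q (Fin.rev s))
    {j : Fin 3} {π : Perm (Fin n)} (h : Contains q j π) : Contains q' (Fin.rev j) (rc π) := by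
  obtain ⟨i, hi, hv, hg⟩ := h
  refine ⟨fun s => Fin.rev (i (Fin.rev s)), ?_, ?_, ?_⟩
  · intro s t hst
    exact Fin.rev_lt_rev.2 (hi (Fin.rev_lt_rev.2 hst))
  · intro s t
    rw [hq, ← hv]
    simp [rc]
  · simp only [Fin.rev_castSucc, Fin.rev_succ, Fin.rev_rev, Fin.val_rev]
    have h1 := (i j.succ).isLt
    omega

theorem rc_av {q q' : Fin 4 → ℕ} (hq : ∀ s t, q' s < q' t ↔ q (Fin.rev t) < q (Fin.rev s))
    (j j' : Fin 3) (hj : j' = Fin.rev j) : av n q j = av n q' j' := by
  subst hj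
  unfold av
  have hq' : ∀ s t, q s < q t ↔ q' (Fin.rev t) < q' (Fin.rev s) := by
    intro s t
    rw [hq, Fin.rev_rev, Fin.rev_rev]
  let e : Perm (Fin n) ≃ Perm (Fin n) := ⟨rc, rc, rc_rc, rc_rc⟩
  refine Nat.card_congr (Equiv.subtypeEquiv e fun π => not_congr ?_)
  show Contains q j π ↔ Contains q' (Fin.rev j) (rc π)
  constructor
  · exact rc_contains hq
  · intro h
    have := rc_contains hq' h
    rwa [Fin.rev_rev, rc_rc] at this

end four

/-- **Q1, positive answer.** -/
theorem result (n : ℕ) (j : Fin 3) : av n ![1, 2, 3, 4] j = av n ![1, 2, 4, 3] j ∧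
    av n ![1, 2, 4, 3] j = av n ![2, 1, 4, 3] j := by
  refine ⟨?_, down n j⟩
  -- the reverse-complement of `1234` is `1234`, of `2134` is `1243`
  have h1 : ∀ j : Fin 3, av n ![1, 2, 3, 4] j = av n ![1, 2, 3, 4] (Fin.rev j) := fun j =>
    rc_av (by decide) j _ rfl
  have h2 : ∀ j : Fin 3, av n ![2, 1, 3, 4] j = av n ![1, 2, 4, 3] (Fin.rev j) := fun j =>
    rc_av (by decide) j _ rfl
  have h3 := h1 j
  rw [up n (Fin.rev j), h2, Fin.rev_rev] at h3
  exact h3

end Pool.Agent.Results.MP_1ac54c_co.Gapped
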